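import Pool.Agent.Sedf.Spc

namespace Pool.Agent.Results.MP_4124fc_co.EveryM

open Pool.Agent.Sedf Pool.Agent.Sedf.Abx Pool.Agent.Sedf.Spc

/-- If some finite group of order `n` (abelian or not) contains an `(n, m, k, l)`-strong external
difference family with `m ≥ 3` and `k, l ≥ 1`, then, with `u = m ^ 2 - 3 m + 1`,
`u (n - m k) ≤ m (m - 1) (m - 3) ^ 2 k`, `n < (m - 1) ^ 2 k`, `k < (m - 1) l`, and
`m (m - 3) (n - m k) ≤ (m ^ 2 - 4 m + 2) ^ 2 k` if `u` does not divide `l`. If all irreducible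
complex representations of the group have degree at most `D` (for example if it has an abelian
subgroup of index `D`), then with `K = D (m - 2) - 1` also
`K m (n - m k) ≤ (m - 1) (K - 1) ^ 2 k`. For `k > 1` some divisor `d` of `l ^ 2` has
`d < l ≤ u d`, `l ≤ K d` and `j (l + d) = w (m - 2) d` with `j ≥ 1` and `1 ≤ w ≤ D`, and
`(l - d) ^ 2 ≤ m (m - 4) l d` or `l / d` is a term of one of two explicit sequences. -/
theorem result (G : Type*) [Group G] [Finite G] (m k l : ℕ) (hm : 3 ≤ m) (hk : 1 ≤ k)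
    (hl : 1 ≤ l) (h : Realised G m k l) :
    (m ^ 2 - 3 * m + 1) * (Nat.card G - m * k) ≤ m * (m - 1) * (m - 3) ^ 2 * k ∧
      Nat.card G < (m - 1) ^ 2 * k ∧ k < (m - 1) * l ∧
      (∀ D : ℕ, IrrLe G D →
        (D * (m - 2) - 1) * (m * (Nat.card G - m * k)) ≤
          (m - 1) * (D * (m - 2) - 2) ^ 2 * k) ∧
      (¬ (m ^ 2 - 3 * m + 1) ∣ l →
        m * (m - 3) * (Nat.card G - m * k) ≤ (m ^ 2 - 4 * m + 2) ^ 2 * k) ∧
      (1 < k → ∃ d : ℕ, d ∣ l ^ 2 ∧ d < l ∧ l ≤ (m ^ 2 - 3 * m + 1) * d ∧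
        (∀ D : ℕ, IrrLe G D → l ≤ (D * (m - 2) - 1) * d ∧
          ∃ w j : ℕ, 1 ≤ w ∧ w ≤ D ∧ 1 ≤ j ∧ j * (l + d) = w * (m - 2) * d) ∧
        (((l : ℤ) - d) ^ 2 ≤ (m : ℤ) * (m - 4) * l * d ∨
          ∃ j, (l : ℝ) / d = rt m ((m : ℝ) ^ 2 - 3 * m + 1) j ∨
            (l : ℝ) / d = rt m (((m : ℝ) - 1) * (m - 3)) j)) ∧
      ∀ H : Subgroup G, (∀ x ∈ H, ∀ y ∈ H, x * y = y * x) → IrrLe G H.index := by
  classical
  obtain ⟨A, hA⟩ := h
  have := Fintype.ofFinite G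
  rw [Nat.card_eq_fintype_card]
  have h1 := everyz hA hm hk hl
  exact ⟨h1.1, h1.2.1, h1.2.2.1, h1.2.2.2.1, h1.2.2.2.2.1, h1.2.2.2.2.2,
    fun H hH => irrle_of_abelian H hH⟩

end Pool.Agent.Results.MP_4124fc_co.EveryM
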