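import Pool.Agent.Sedf.Final

namespace Pool.Agent.Results.MP_4124fc_co.NearCompleteMany

open Pool.Agent.Sedf

/-- If `q = 12 w - 1` is prime, `w` a power of three, and `|G| = 81 w q²`, then the Sylow
`q`-subgroup is normal. -/
theorem normal_of_prime {G : Type*} [Group G] [Finite G] {e q : ℕ} (hq : q.Prime)
    (hqe : q = 12 * 3 ^ e - 1) (hn : Nat.card G = 3 ^ (e + 4) * (q * q)) (K : Sylow q G) :
    (K : Subgroup G).Normal := by
  have : Fact q.Prime := ⟨hq⟩
  have hw : 1 ≤ 3 ^ e := Nat.one_le_pow _ _ (by norm_num)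
  have h1 : Nat.card (Sylow q G) ∣ 3 ^ (e + 4) := by
    have h2 : Nat.card (Sylow q G) ∣ (K : Subgroup G).index := K.card_dvd_index
    have h3 : (K : Subgroup G).index ∣ 3 ^ (e + 4) * (q * q) := by
      rw [← hn]; exact Subgroup.index_dvd_card _
    have h4 : Nat.Coprime (K : Subgroup G).index (q * q) := by
      have := ((Nat.Prime.coprime_iff_not_dvd hq).mpr K.not_dvd_index).symm
      rw [Nat.coprime_mul_iff_right]
      exact ⟨this, this⟩
    exact h2.trans (h4.dvd_of_dvd_mul_right h3)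
  obtain ⟨j, hj, hcard⟩ := (Nat.dvd_prime_pow Nat.prime_three).mp h1
  have hmod : q ∣ 3 ^ j - 1 := by
    have h5 := card_sylow_modEq_one q G
    rw [hcard] at h5
    exact (Nat.modEq_iff_dvd' (Nat.one_le_pow _ _ (by norm_num))).mp h5.symm
  have hj0 : j = 0 := by
    by_contra hj0
    have hpos : 0 < 3 ^ j - 1 := by
      have : 3 ^ 1 ≤ 3 ^ j := Nat.pow_le_pow_right (by norm_num) (by omega)
      omega
    have hle := Nat.le_of_dvd hpos hmod
    have hcases : j ≤ e ∨ j = e + 1 ∨ j = e + 2 ∨ j = e + 3 ∨ j = e + 4 := by omega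
    rcases hcases with h | h | h | h | h
    · have : 3 ^ j ≤ 3 ^ e := Nat.pow_le_pow_right (by norm_num) h
      omega
    · rw [h, pow_succ] at hle; omega
    · have : 3 ^ (e + 2) = 9 * 3 ^ e := by rw [pow_add]; ring
      rw [h, this] at hle; omega
    · have h6 : 3 ^ (e + 3) = 27 * 3 ^ e := by rw [pow_add]; ring
      rw [h, h6] at hmod
      have h7 : 27 * 3 ^ e - 1 = 2 * q + (3 * 3 ^ e + 1) := by omega
      rw [h7] at hmod
      have h8 := (Nat.dvd_add_right (Dvd.intro_left 2 rfl)).mp hmod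
      have := Nat.le_of_dvd (by omega) h8
      omega
    · have h6 : 3 ^ (e + 4) = 81 * 3 ^ e := by rw [pow_add]; ring
      rw [h, h6] at hmod
      have h7 : 81 * 3 ^ e - 1 = 6 * q + (9 * 3 ^ e + 5) := by omega
      rw [h7] at hmod
      have h8 := (Nat.dvd_add_right (Dvd.intro_left 6 rfl)).mp hmod
      have h9 := Nat.le_of_dvd (by omega) h8
      have h10 : 3 ^ e ≤ 2 := by omega
      have h11 : e = 0 := by
        by_contra he
        have : 3 ^ 1 ≤ 3 ^ e := Nat.pow_le_pow_right (by norm_num) (by omega)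
        omega
      subst h11
      norm_num at hqe h8
      subst hqe
      omega
  rw [hj0, pow_zero] at hcard
  have : Subsingleton (Sylow q G) := (Nat.card_eq_one_iff_unique.mp hcard).1
  exact K.normal_of_subsingleton

/-- Near-complete strong external difference families with at least three sets in arbitrary
finite groups: the parameters lie in a one-parameter family whose first member is
`(243, 11, 22, 20)`; for the other members `4 * 3 ^ (a - 1) - 1` is composite and no Sylow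
subgroup of `G` is normal. -/
theorem result (G : Type*) [Group G] [Finite G] (m k l : ℕ) (hm : 3 ≤ m) (hk : 1 ≤ k)
    (h : Realised G m k l) (hn : Nat.card G = m * k + 1) :
    ∃ a : ℕ, 1 ≤ a ∧ m = 4 * 3 ^ a - 1 ∧ k = (3 ^ a - 1) * (4 * 3 ^ a - 1) ∧
      l = 2 * (3 ^ a - 1) * (2 * 3 ^ a - 1) ∧
      Nat.card G = 3 ^ (a + 2) * (4 * 3 ^ (a - 1) - 1) ^ 2 ∧
      (2 ≤ a → ¬ (4 * 3 ^ (a - 1) - 1).Prime ∧
        ∀ p : ℕ, p.Prime → p ∣ Nat.card G → ∀ P : Sylow p G, ¬ (P : Subgroup G).Normal) := by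
  classical
  have := Fintype.ofFinite G
  rw [Nat.card_eq_fintype_card] at hn
  obtain ⟨A, hA⟩ := h
  obtain ⟨a, ha⟩ := near_of_sedf hA (by omega) hn.symm
  obtain ⟨D, hD⟩ := ha.delta hm hk hn.symm
  have hn1 : Fintype.card G ≠ 1 := by
    have : 3 ≤ m * k := le_trans hm (Nat.le_mul_of_pos_right _ (by omega))
    omega
  obtain ⟨q, hq, hqn⟩ := Nat.exists_prime_and_dvd hn1
  have : Fact q.Prime := ⟨hq⟩
  have hdvd := ha.mod_two hn.symm hqn hD
  have hpar : (k : ℤ) * (m * k - k) = l * (m * k) := by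
    have := ha.par
    rw [hn] at this
    push_cast at this
    linear_combination this
  obtain ⟨u, hu, hku, hlu, hDu, hmu⟩ := params hm hk hpar hD hdvd
  obtain ⟨e, he, hue⟩ := ha.pow_three hmu hku hlu hn.symm hu
  have h3 : 3 ≤ 3 ^ e := by
    calc 3 = 3 ^ 1 := (pow_one 3).symm
      _ ≤ 3 ^ e := Nat.pow_le_pow_right (by norm_num) he
  have hcard : Nat.card G = 3 ^ (e + 2) * (4 * 3 ^ (e - 1) - 1) ^ 2 := by
    rw [Nat.card_eq_fintype_card, hn, card_eq hmu hku, hue]
    obtain ⟨e', rfl⟩ : ∃ e', e = e' + 1 := ⟨e - 1, by omega⟩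
    have h4 : 4 * u + 1 = 3 * (4 * 3 ^ e' - 1) := by
      have : 3 ^ (e' + 1) = 3 * 3 ^ e' := by rw [pow_succ]; ring
      have h5 : 1 ≤ 3 ^ e' := Nat.one_le_pow _ _ (by norm_num)
      omega
    rw [h4, Nat.add_sub_cancel]
    ring
  refine ⟨e, he, by omega, ?_, ?_, hcard, fun he2 => ?_⟩
  · rw [hku, hmu]
    have : u = 3 ^ e - 1 := by omega
    rw [← this]
    have h4 : 4 * 3 ^ e - 1 = 4 * u + 3 := by omega
    rw [h4]; ring
  · rw [hlu, hmu]
    have : u = 3 ^ e - 1 := by omega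
    rw [← this]
    have h4 : 2 * 3 ^ e - 1 = 2 * u + 1 := by omega
    have h5 : 4 * u + 3 - 1 = 2 * (2 * u + 1) := by omega
    rw [h4, h5]; ring
  · have hnot : ∀ p : ℕ, p.Prime → p ∣ Nat.card G → ∀ P : Sylow p G,
        ¬ (P : Subgroup G).Normal := by
      intro p hp hpn P hP
      rw [Nat.card_eq_fintype_card] at hpn
      exact ha.sylow_not_normal hmu hku hlu hn.symm hue he2 hp hpn P hP
    refine ⟨fun hv => ?_, hnot⟩
    obtain ⟨e', rfl⟩ : ∃ e', e = e' + 2 := ⟨e - 2, by omega⟩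
    have h6 : 4 * 3 ^ (e' + 2 - 1) - 1 = 12 * 3 ^ e' - 1 := by
      have : e' + 2 - 1 = e' + 1 := by omega
      rw [this, pow_succ]; congr 1; ring
    rw [h6] at hv hcard
    have hdv : (12 * 3 ^ e' - 1) ∣ Nat.card G := by
      rw [hcard, pow_two]
      exact (dvd_mul_right _ _).mul_left _
    have : Fact (12 * 3 ^ e' - 1).Prime := ⟨hv⟩
    have K : Sylow (12 * 3 ^ e' - 1) G := default
    refine hnot _ hv hdv K (normal_of_prime hv rfl ?_ K)
    rw [hcard, pow_two]

end Pool.Agent.Results.MP_4124fc_co.NearCompleteMany
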