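import Pool.Agent.Sedf.Two
import Pool.Agent.Sedf.Paley

namespace Pool.Agent.Results.MP_4124fc_co.NearCompleteTwo

open Pool.Agent.Sedf

/-- If a finite group of nonsquare order contains a near-complete strong external difference
family with two sets, then its order is a power `p ^ s`, `p` a prime that is `1` mod `4` and `s`
odd, and the same parameters are realised in the additive group of the field with `p ^ s`
elements. -/
theorem result (G : Type*) [Group G] [Finite G] (k l : ℕ) (h : Realised G 2 k l)
    (hn : Nat.card G = 2 * k + 1) (hsq : ¬ IsSquare (Nat.card G)) :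
    ∃ p s : ℕ, p.Prime ∧ p % 4 = 1 ∧ Odd s ∧ Nat.card G = p ^ s ∧
      ∃ (F : Type) (_ : Field F), Nat.card F = p ^ s ∧ Realised (Multiplicative F) 2 k l := by
  classical
  have := Fintype.ofFinite G
  rw [Nat.card_eq_fintype_card] at hn hsq ⊢
  obtain ⟨A, hA⟩ := h
  obtain ⟨a, ha⟩ := near_of_sedf hA (by norm_num) hn.symm
  obtain ⟨hkl, p, s, hp, hp4, hs, hps⟩ := near_two ha hn hsq
  refine ⟨p, s, hp, hp4, hs, hps, ?_⟩
  have : Fact p.Prime := ⟨hp⟩
  have hs0 : s ≠ 0 := by rintro rfl; exact (Nat.not_odd_zero hs).elim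
  have hcard : Nat.card (GaloisField p s) = p ^ s := GaloisField.card p s hs0
  refine ⟨GaloisField p s, inferInstance, hcard, ?_⟩
  have : Fintype (GaloisField p s) := Fintype.ofFinite _
  rw [Nat.card_eq_fintype_card] at hcard
  have hl : 1 ≤ l := by
    by_contra h0
    have : l = 0 := by omega
    apply hsq
    rw [hn, hkl, this]
    exact ⟨1, rfl⟩
  rw [hkl]
  exact ⟨paley (GaloisField p s), paley_sedf hl (by rw [hcard, ← hps, hn, hkl]; ring)⟩

end Pool.Agent.Results.MP_4124fc_co.NearCompleteTwo
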