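import Pool.Agent.Sedf.Three

namespace Pool.Agent.Results.MP_4124fc_co.ThreeSets

open Pool.Agent.Sedf

/-- The trivial family of all singletons. -/
theorem realised_singletons (G : Type*) [Group G] [Finite G] :
    Realised G (Nat.card G) 1 1 := by
  let e := (Finite.equivFin G).symm
  refine ⟨fun i => {e i}, fun i => Finset.card_singleton _, fun i j hij => ?_, fun i g hg => ?_⟩
  · rw [Finset.disjoint_singleton]
    exact fun h => hij (e.injective h)
  · rw [Nat.card_eq_one_iff_unique]
    refine ⟨⟨fun p q => ?_⟩, ⟨⟨(e i, g⁻¹ * e i, e.symm (g⁻¹ * e i)), ?_, ?_, ?_, ?_⟩⟩⟩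
    · have key : ∀ r : {p : G × G × Fin (Nat.card G) // p.2.2 ≠ i ∧ p.1 ∈ (fun i => ({e i} : Finset G)) i ∧
          p.2.1 ∈ (fun i => ({e i} : Finset G)) p.2.2 ∧ p.1 * p.2.1⁻¹ = g},
          r.1 = (e i, g⁻¹ * e i, e.symm (g⁻¹ * e i)) := by
        rintro ⟨⟨a, b, j⟩, h1, h2, h3, h4⟩
        have h2' : a = e i := Finset.mem_singleton.mp h2
        have h3' : b = e j := Finset.mem_singleton.mp h3
        have h4' : a * b⁻¹ = g := h4
        have h5 : b = g⁻¹ * e i := by rw [← h4', h2']; group
        have h6 : j = e.symm (g⁻¹ * e i) := by rw [← h5, h3']; simp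
        simp only [h2', h5, ← h6]
      exact Subtype.ext ((key p).trans (key q).symm)
    · intro h
      apply hg
      have h5 : g⁻¹ * e i = e i := by
        have := congrArg e h
        simpa using this
      have h6 : g⁻¹ = 1 := by simpa using h5
      exact inv_eq_one.mp h6
    · simp
    · simp
    · simp

/-- In every finite group the only strong external difference families with `m = 3` are the
trivial ones: the tuple `(n, 3, k, l)` is realised only if it is `(3, 3, 1, 1)`. -/
theorem result (G : Type*) [Group G] [Finite G] (k l : ℕ) (hk : 1 ≤ k) (hl : 1 ≤ l) :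
    Realised G 3 k l ↔ Nat.card G = 3 ∧ k = 1 ∧ l = 1 := by
  constructor
  · rintro ⟨A, hA⟩
    have := Fintype.ofFinite G
    exact three_sets hk hl hA
  · rintro ⟨h, rfl, rfl⟩
    have := realised_singletons G
    rwa [h] at this

end Pool.Agent.Results.MP_4124fc_co.ThreeSets
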